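import Pool.Agent.Helper937.Rat6

set_option autoImplicit false

open Cardinal Set MeasureTheory

namespace Pool.Agent.Results.MP_a54a32_lc.UnlessSaturatedIdeal

/-- the plane with its Euclidean distance -/
abbrev Plane : Type := EuclideanSpace ℝ (Fin 2)

/-- an index set of cardinality ℵ₁ -/
abbrev Omega1 : Type := (ℵ_ 1).ord.ToType

/-- κ is weakly inaccessible: an uncountable regular limit cardinal. -/
def WeaklyInaccessible (κ : Cardinal.{0}) : Prop :=
  ℵ₀ < κ ∧ κ.IsRegular ∧ Order.IsSuccLimit κ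

/-- There is a proper ω₁-saturated σ-ideal of subsets of Ω containing all singletons (ω₁-saturated:
of any ω₁ pairwise disjoint subsets of Ω one is in the ideal). -/
def SaturatedIdeal (Ω : Type) : Prop :=
  ∃ I : Set (Set Ω), (∀ ω, {ω} ∈ I) ∧ Set.univ ∉ I ∧ (∀ s ∈ I, ∀ t ⊆ s, t ∈ I) ∧
    (∀ s : ℕ → Set Ω, (∀ n, s n ∈ I) → (⋃ n, s n) ∈ I) ∧
    ∀ Z : Omega1 → Set Ω, (∀ ξ η, ξ ≠ η → Disjoint (Z ξ) (Z η)) → ∃ ξ, Z ξ ∈ I

/-- For every T ⊆ A of positive outer measure, the ideal of Lebesgue null subsets of T is not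
ω₁-saturated: there are ω₁ pairwise disjoint subsets of T of positive outer measure. -/
def Unsaturated (A : Set Plane) : Prop :=
  ∀ T ⊆ A, volume T ≠ 0 → ∃ Z : Omega1 → Set Plane, (∀ ξ, Z ξ ⊆ T ∧ volume (Z ξ) ≠ 0) ∧
    ∀ ξ η, ξ ≠ η → Disjoint (Z ξ) (Z η)

/-- The positive answer for the set A: it has a subset of the same Lebesgue outer measure which
omits rational distances. -/
def Good (A : Set Plane) : Prop :=
  ∃ B ⊆ A, volume B = volume A ∧ ∀ x ∈ B, ∀ y ∈ B, x ≠ y → ¬ ∃ q : ℚ, dist x y = q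

/-- (1) An unsaturated set A has, for every countable set D of forbidden distances, a subset of the
same outer measure in which no two distinct points have distance in D; in particular it is good.
(2) A is unsaturated if no weakly inaccessible cardinal is at most |A|. (3) A is unsaturated if
some set Ω with |A| ≤ |Ω| carries no proper ω₁-saturated σ-ideal containing all singletons.
(4) If no weakly inaccessible cardinal is at most 2^ℵ₀, then every A is good. (5) If there is no
proper ω₁-saturated σ-ideal of sets of reals containing all singletons, then every A is good. -/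
theorem result :
    (∀ (D : Set ℝ), D.Countable → ∀ A : Set Plane, Unsaturated A →
      ∃ B ⊆ A, volume B = volume A ∧ ∀ x ∈ B, ∀ y ∈ B, x ≠ y → dist x y ∉ D) ∧
    (∀ A : Set Plane, Unsaturated A → Good A) ∧
    (∀ A : Set Plane, (∀ κ ≤ #A, ¬ WeaklyInaccessible κ) → Unsaturated A) ∧
    (∀ (A : Set Plane) (Ω : Type), #A ≤ #Ω → ¬ SaturatedIdeal Ω → Unsaturated A) ∧
    ((∀ κ ≤ (2 : Cardinal.{0}) ^ ℵ₀, ¬ WeaklyInaccessible κ) → ∀ A : Set Plane, Good A) ∧
    (¬ SaturatedIdeal ℝ → ∀ A : Set Plane, Good A) := by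
  have ha : ∀ (D : Set ℝ), D.Countable → ∀ A : Set Plane, Unsaturated A →
      ∃ B ⊆ A, volume B = volume A ∧ ∀ x ∈ B, ∀ y ∈ B, x ≠ y → dist x y ∉ D := by
    intro D hD A hA
    obtain ⟨ν, hν, hac, hca, hν0⟩ := Pool.Agent.Helper937.Rat.exists_fin
    have hNS : Pool.Agent.Helper937.Rat.NS ν A := by
      intro T hT hT0
      obtain ⟨Z, h1, h2⟩ := hA T hT (fun h => hT0 (hca h))
      exact ⟨Z, fun ξ => ⟨(h1 ξ).1, fun h => (h1 ξ).2 (hac h)⟩, h2⟩
    obtain ⟨B, hB, hfree⟩ := Pool.Agent.Helper937.Rat.free_gen ν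
      (fun x y => dist x y ∈ D) (fun a b h => by rw [dist_comm]; exact h)
      (fun a b hab => Pool.Agent.Helper937.Rat.two_circles' D hD a b hab) A hNS
    refine ⟨B, hB.1, ?_, hfree⟩
    exact Pool.Agent.Helper937.Rat.Full.measure_eq
      (Pool.Agent.Helper937.Rat.Full.of_ac hB hac)
  have hb : ∀ A : Set Plane, Unsaturated A → Good A := by
    intro A hA
    obtain ⟨B, h1, h2, h3⟩ := ha (Set.range ((↑) : ℚ → ℝ)) (Set.countable_range _) A hA
    refine ⟨B, h1, h2, fun x hx y hy hne => ?_⟩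
    rintro ⟨q, hq⟩
    exact h3 x hx y hy hne ⟨q, hq.symm⟩
  have hc : ∀ A : Set Plane, (∀ κ ≤ #A, ¬ WeaklyInaccessible κ) → Unsaturated A := by
    intro A hA
    apply Pool.Agent.Helper937.Rat.ns_of_ds volume A (fun x => by simp)
    exact Pool.Agent.Helper937.Rat.disj_gen volume #A hA #A le_rfl A rfl
  have hd : ∀ (A : Set Plane) (Ω : Type), #A ≤ #Ω → ¬ SaturatedIdeal Ω → Unsaturated A := by
    classical
    intro A Ω hΩ hsat T hT hT0
    obtain ⟨g⟩ := hΩ
    let P : Set Ω → Set Plane := fun s => {x | x ∈ T ∧ ∃ h : x ∈ A, g ⟨x, h⟩ ∈ s}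
    by_contra hcon
    push Not at hcon
    apply hsat
    refine ⟨{s | volume (P s) = 0}, ?_, ?_, ?_, ?_, ?_⟩
    · intro ω
      have hsub : (P {ω}).Subsingleton := by
        rintro x ⟨_, hx, hx'⟩ y ⟨_, hy, hy'⟩
        have h1 : g ⟨x, hx⟩ = g ⟨y, hy⟩ := by
          rw [Set.mem_singleton_iff] at hx' hy'
          rw [hx', hy']
        exact congrArg Subtype.val (g.injective h1)
      exact hsub.measure_zero volume
    · intro h
      apply hT0
      refine measure_mono_null ?_ h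
      intro x hx
      exact ⟨hx, hT hx, Set.mem_univ _⟩
    · intro s hs t hts
      refine measure_mono_null ?_ hs
      rintro x ⟨h1, h2, h3⟩
      exact ⟨h1, h2, hts h3⟩
    · intro s hs
      have h1 : P (⋃ n, s n) ⊆ ⋃ n, P (s n) := by
        rintro x ⟨h1, h2, h3⟩
        obtain ⟨n, hn⟩ := Set.mem_iUnion.1 h3
        exact Set.mem_iUnion.2 ⟨n, h1, h2, hn⟩
      exact measure_mono_null h1 (measure_iUnion_null hs)
    · intro Z hZ
      by_contra hcon2
      push Not at hcon2
      obtain ⟨ξ, η, hne, hdis⟩ := hcon (fun ξ => P (Z ξ)) (fun ξ => ⟨fun x hx => hx.1, hcon2 ξ⟩)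
      apply hdis
      rw [Set.disjoint_left]
      rintro x ⟨_, h1, h2⟩ ⟨_, h3, h4⟩
      exact Set.disjoint_left.1 (hZ ξ η hne) h2 h4
  have hcard : ∀ A : Set Plane, #A ≤ Cardinal.continuum := by
    intro A
    have h1 : #Plane = Cardinal.continuum := by
      have h2 : #Plane = #(Fin 2 → ℝ) := Cardinal.mk_congr (WithLp.equiv 2 (Fin 2 → ℝ))
      rw [h2, Cardinal.mk_pi]
      simp only [Cardinal.mk_real, Cardinal.prod_const, Cardinal.lift_id, Cardinal.mk_fin]
      exact Cardinal.power_nat_eq Cardinal.aleph0_le_continuum (by norm_num)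
    rw [← h1]
    exact Cardinal.mk_set_le A
  refine ⟨ha, hb, hc, hd, ?_, ?_⟩
  · intro h A
    refine hb A (hc A fun κ hκ => h κ (hκ.trans ?_))
    rw [Cardinal.two_power_aleph0]
    exact hcard A
  · intro h A
    refine hb A (hd A ℝ ?_ h)
    rw [Cardinal.mk_real]
    exact hcard A

end Pool.Agent.Results.MP_a54a32_lc.UnlessSaturatedIdeal
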